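import Mathlib

/-! # A smooth function equal to the identity near zero and to the sign far from zero -/

open Set Filter Topology

namespace Pool.Agent.H64.SYRF

theorem exists_clamp {η : ℝ} (hη : 0 < η) : ∃ f : ℝ → ℝ, ContDiff ℝ (⊤ : ℕ∞) f ∧
    (∀ s, f s = 0 ↔ s = 0) ∧ (∀ᶠ s in 𝓝 (0 : ℝ), f s = s) ∧
    (∀ s, η ≤ s → f s = 1) ∧ (∀ s, s ≤ -η → f s = -1) := by
  let φ : ContDiffBump (0 : ℝ) := ⟨η / 2, η, by positivity, by linarith⟩
  set f : ℝ → ℝ := fun s => φ s * s + (1 - φ s) * (if 0 < s then 1 else -1) with hf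
  have h1 : ∀ s, |s| ≤ η / 2 → f s = s := by
    intro s hs
    have : φ s = 1 := φ.one_of_mem_closedBall (by
      rw [Metric.mem_closedBall, dist_zero_right, Real.norm_eq_abs]
      exact hs)
    simp [hf, this]
  have h2 : ∀ s, η ≤ |s| → φ s = 0 := by
    intro s hs
    refine φ.zero_of_le_dist ?_
    rw [dist_zero_right, Real.norm_eq_abs]
    exact hs
  have hev : ∀ᶠ s in 𝓝 (0 : ℝ), f s = s := by
    have : ∀ᶠ s in 𝓝 (0 : ℝ), |s| < η / 2 := by
      have := Metric.ball_mem_nhds (0 : ℝ) (by positivity : 0 < η / 2)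
      filter_upwards [this] with s hs
      rwa [Metric.mem_ball, dist_zero_right, Real.norm_eq_abs] at hs
    filter_upwards [this] with s hs
    exact h1 s hs.le
  refine ⟨f, ?_, fun s => ⟨fun h => ?_, fun h => ?_⟩, hev, fun s hs => ?_, fun s hs => ?_⟩
  · rw [contDiff_iff_contDiffAt]
    intro s
    have hφ : ContDiffAt ℝ (⊤ : ℕ∞) (fun s => φ s) s := φ.contDiff.contDiffAt
    rcases lt_trichotomy s 0 with hs | hs | hs
    · have h3 : f =ᶠ[𝓝 s] fun s => φ s * s + (1 - φ s) * (-1) := by
        filter_upwards [Iio_mem_nhds hs] with y hy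
        simp only [hf]
        rw [if_neg (not_lt.2 (le_of_lt hy))]
      exact ((hφ.mul contDiffAt_id).add ((contDiffAt_const.sub hφ).mul
        contDiffAt_const)).congr_of_eventuallyEq h3
    · subst hs
      exact contDiffAt_id.congr_of_eventuallyEq hev
    · have h3 : f =ᶠ[𝓝 s] fun s => φ s * s + (1 - φ s) * 1 := by
        filter_upwards [Ioi_mem_nhds hs] with y hy
        simp only [hf]
        rw [if_pos (mem_Ioi.1 hy)]
      exact ((hφ.mul contDiffAt_id).add ((contDiffAt_const.sub hφ).mul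
        contDiffAt_const)).congr_of_eventuallyEq h3
  · by_contra hs
    have hφ0 : 0 ≤ φ s := φ.nonneg
    have hφ1 : φ s ≤ 1 := φ.le_one
    rcases lt_or_gt_of_ne hs with hs' | hs'
    · have h4 : f s = φ s * s + (1 - φ s) * (-1) := by
        simp only [hf]
        rw [if_neg (not_lt.2 hs'.le)]
      rw [h4] at h
      have h5 : φ s * s ≤ 0 := mul_nonpos_of_nonneg_of_nonpos hφ0 hs'.le
      have h6 : φ s = 1 := by linarith
      rw [h6] at h
      linarith
    · have h4 : f s = φ s * s + (1 - φ s) * 1 := by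
        simp only [hf]
        rw [if_pos hs']
      rw [h4] at h
      have h5 : 0 ≤ φ s * s := mul_nonneg hφ0 hs'.le
      have h6 : φ s = 1 := by linarith
      rw [h6] at h
      linarith
  · rw [h]
    exact h1 0 (by rw [abs_zero]; positivity)
  · simp only [hf]
    rw [h2 s (by rw [abs_of_pos (by linarith)]; exact hs), if_pos (by linarith)]
    ring
  · simp only [hf]
    rw [h2 s (by rw [abs_of_neg (by linarith)]; linarith), if_neg (by linarith)]
    ring

end Pool.Agent.H64.SYRF
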