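import Mathlib
import Pool.Agent.H33.FlowODE

/-! # Time dependent smooth fields with compact support in space: short time flows

`w : ℝ × E → E` smooth, `w (t, x) = 0` for `x ∉ K'`, `K'` compact. Then there is `R > 0` such that for all
`t0 ∈ [-1, 2]` the shifted field `(t, x) ↦ w (t0 + t, x)` satisfies `Flow.Good`. -/

open ContinuousMap Set Filter Topology

namespace Pool.Agent.H64.SYRF

open Pool.Agent.H33.Flow

variable {E : Type*} [NormedAddCommGroup E] [NormedSpace ℝ E] [CompleteSpace E]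

/-- the shifted field -/
noncomputable def shf (w : ℝ × E → E) (hw : ContDiff ℝ (⊤ : ℕ∞) w) (t0 : ℝ) : C(ℝ × E, E) :=
  ⟨fun z => w (t0 + z.1, z.2), hw.continuous.comp (by fun_prop)⟩

theorem shf_contDiff (w : ℝ × E → E) (hw : ContDiff ℝ (⊤ : ℕ∞) w) (t0 : ℝ) :
    ContDiff ℝ (⊤ : ℕ∞) (shf w hw t0) :=
  hw.comp ((contDiff_const.add contDiff_fst).prodMk contDiff_snd)

theorem exists_good (w : ℝ × E → E) (hw : ContDiff ℝ (⊤ : ℕ∞) w) {K' : Set E} (hK : IsCompact K')
    (h0 : ∀ t x, x ∉ K' → w (t, x) = 0) :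
    ∃ R K : ℝ, ∀ t0 ∈ Icc (-1 : ℝ) 2, Good (shf w hw t0) R K := by
  have hcd : Continuous (fun z : ℝ × E => fderiv ℝ w z) := hw.continuous_fderiv (by simp)
  obtain ⟨L, hL⟩ := (isCompact_Icc (a := (-2 : ℝ)) (b := 3)).prod hK |>.exists_bound_of_continuousOn
    (f := fun z : ℝ × E => fderiv ℝ w z) hcd.continuousOn
  set M : ℝ := max L 0 with hM
  have hM0 : 0 ≤ M := le_max_right _ _
  have hd : ∀ t ∈ Icc (-2 : ℝ) 3, ∀ x : E, ‖fderiv ℝ (fun y => w (t, y)) x‖ ≤ M := by
    intro t ht x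
    by_cases hx : x ∈ K'
    · have h1 : HasFDerivAt (fun y => w (t, y)) (fderiv ℝ w (t, x) ∘L .inr ℝ ℝ E) x :=
        ((hw.differentiable (by simp)) (t, x)).hasFDerivAt.comp x (hasFDerivAt_prodMk_right t x)
      rw [h1.fderiv]
      refine (ContinuousLinearMap.opNorm_comp_le _ _).trans ?_
      have h2 : ‖ContinuousLinearMap.inr ℝ ℝ E‖ ≤ 1 := ContinuousLinearMap.norm_inr_le_one ℝ ℝ E
      have h3 := hL (t, x) ⟨ht, hx⟩
      calc ‖fderiv ℝ w (t, x)‖ * ‖ContinuousLinearMap.inr ℝ ℝ E‖ ≤ L * 1 := by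
            gcongr
            exact (norm_nonneg _).trans h3
        _ ≤ M := by rw [mul_one]; exact le_max_left _ _
    · have h1 : (fun y => w (t, y)) =ᶠ[𝓝 x] fun _ => 0 := by
        filter_upwards [hK.isClosed.isOpen_compl.mem_nhds hx] with y hy
        exact h0 t y hy
      rw [h1.fderiv_eq]
      simpa using hM0
  refine ⟨min 1 (1 / (4 * (M + 1))), M, fun t0 ht0 => ?_⟩
  have hR1 : min 1 (1 / (4 * (M + 1))) ≤ 1 := min_le_left _ _
  have hR2 : min 1 (1 / (4 * (M + 1))) ≤ 1 / (4 * (M + 1)) := min_le_right _ _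
  have hRp : 0 < min 1 (1 / (4 * (M + 1))) := lt_min one_pos (by positivity)
  refine ⟨shf_contDiff w hw t0, hRp, hM0, ?_, ?_⟩
  · have : 2 * min 1 (1 / (4 * (M + 1))) * M ≤ 2 * (1 / (4 * (M + 1))) * M := by gcongr
    refine this.trans_lt ?_
    rw [show 2 * (1 / (4 * (M + 1))) * M = (2 * M) / (4 * (M + 1)) by ring, div_lt_one (by positivity)]
    linarith
  · intro t ht x y
    have ht' : t0 + t ∈ Icc (-2 : ℝ) 3 := by
      have := abs_lt.1 (ht.trans_le hR1)
      exact ⟨by linarith [ht0.1, this.1], by linarith [ht0.2, this.2]⟩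
    exact Convex.norm_image_sub_le_of_norm_fderiv_le (f := fun y => w (t0 + t, y)) (s := univ)
      (fun z _ => ((hw.differentiable (by simp)).comp
        ((differentiable_const _).prodMk differentiable_id)) z)
      (fun z _ => hd _ ht' z) convex_univ (mem_univ y) (mem_univ x)

end Pool.Agent.H64.SYRF
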