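import Mathlib
import Pool.Agent.H64.SYRF.FlowA

/-! # Integral curves of a field tangent to an embedded manifold stay in it -/

open Set Filter Topology

namespace Pool.Agent.H64.SYRF

variable {E H : Type*} [NormedAddCommGroup E] [NormedSpace ℝ E] [CompleteSpace E]
  [NormedAddCommGroup H] [NormedSpace ℝ H] [CompleteSpace H]

/-- a chart of the subset `X` of `E` modelled on `H`: `ρ` is smooth on the open subset `U` of `E`, `ψ` is
smooth on the open subset `V` of `H`, `ψ : V → X ∩ U` is a bijection with inverse `ρ` -/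
structure Cht (E H : Type*) [NormedAddCommGroup E] [NormedSpace ℝ E]
    [NormedAddCommGroup H] [NormedSpace ℝ H] (X : Set E) where
  U : Set E
  V : Set H
  hU : IsOpen U
  hV : IsOpen V
  ρ : E → H
  ψ : H → E
  hρ : ContDiffOn ℝ (⊤ : ℕ∞) ρ U
  hψ : ContDiffOn ℝ (⊤ : ℕ∞) ψ V
  mem : ∀ v ∈ V, ψ v ∈ X ∩ U
  left : ∀ v ∈ V, ρ (ψ v) = v
  right : ∀ x ∈ X ∩ U, ρ x ∈ V ∧ ψ (ρ x) = x
  maps : ∀ x ∈ U, ρ x ∈ V

namespace Cht

variable {X : Set E} (c : Cht E H X)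

omit [CompleteSpace E] [CompleteSpace H]

theorem ρ_at {x : E} (hx : x ∈ c.U) : ContDiffAt ℝ (⊤ : ℕ∞) c.ρ x :=
  c.hρ.contDiffAt (c.hU.mem_nhds hx)

theorem ψ_at {v : H} (hv : v ∈ c.V) : ContDiffAt ℝ (⊤ : ℕ∞) c.ψ v :=
  c.hψ.contDiffAt (c.hV.mem_nhds hv)

theorem dρ_at {x : E} (hx : x ∈ c.U) : ContDiffAt ℝ (⊤ : ℕ∞) (fderiv ℝ c.ρ) x :=
  (c.ρ_at hx).fderiv_right (by simp)

/-- the field `w` is tangent to `X` in the chart -/
def Tan (w : ℝ × E → E) : Prop :=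
  ∀ t, ∀ v ∈ c.V, fderiv ℝ c.ψ v (fderiv ℝ c.ρ (c.ψ v) (w (t, c.ψ v))) = w (t, c.ψ v)

end Cht

/-- local form -/
theorem stay_local {X : Set E} (c : Cht E H X) {w : ℝ × E → E} (hw : ContDiff ℝ (⊤ : ℕ∞) w)
    (ht : c.Tan w) {g : ℝ → E} {t1 : ℝ} {L : NNReal}
    (hL : ∀ᶠ t in 𝓝 t1, LipschitzWith L (fun x => w (t, x)))
    (hg : ∀ᶠ t in 𝓝 t1, HasDerivAt g (w (t, g t)) t) (hx : g t1 ∈ X ∩ c.U) :
    ∃ v : ℝ → H, ∀ᶠ t in 𝓝 t1, v t ∈ c.V ∧ g t = c.ψ (v t) ∧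
      HasDerivAt v (fderiv ℝ c.ρ (g t) (w (t, g t))) t := by
  obtain ⟨hv1, hψ1⟩ := c.right _ hx
  set v1 : H := c.ρ (g t1) with hv1def
  set f : ℝ × H → ℝ × H := fun z => (1, fderiv ℝ c.ρ (c.ψ z.2) (w (z.1, c.ψ z.2))) with hf
  have hU1 : c.ψ v1 ∈ c.U := (c.mem _ hv1).2
  have h1 : ContDiffAt ℝ (⊤ : ℕ∞) (fun z : ℝ × H => c.ψ z.2) (t1, v1) :=
    (c.ψ_at hv1).comp (t1, v1) contDiffAt_snd
  have h2 : ContDiffAt ℝ (⊤ : ℕ∞) (fun z : ℝ × H => w (z.1, c.ψ z.2)) (t1, v1) :=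
    hw.contDiffAt.comp (t1, v1) (contDiffAt_fst.prodMk h1)
  have h3 : ContDiffAt ℝ (⊤ : ℕ∞) (fun z : ℝ × H => fderiv ℝ c.ρ (c.ψ z.2)) (t1, v1) :=
    ContDiffAt.comp (t1, v1) (g := fderiv ℝ c.ρ) (c.dρ_at hU1) h1
  have hfs : ContDiffAt ℝ 1 f (t1, v1) :=
    (contDiffAt_const.prodMk (h3.clm_apply h2)).of_le (by norm_cast)
  obtain ⟨α, hα0, ε, hε, hα⟩ :=
    hfs.exists_forall_mem_closedBall_exists_eq_forall_mem_Ioo_hasDerivAt₀ t1
  have hfst : ∀ t ∈ Ioo (t1 - ε) (t1 + ε), (α t).1 = t := by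
    have := ODE_solution_unique_of_mem_Ioo (v := fun _ _ => (1 : ℝ)) (s := fun _ => univ) (K := 0)
      (a := t1 - ε) (b := t1 + ε) (t₀ := t1) (f := fun t => (α t).1) (g := fun t => t)
      (fun _ _ => (LipschitzWith.const' (1 : ℝ)).lipschitzOnWith) ⟨by linarith, by linarith⟩
      (fun t ht => ⟨by
        have := (hasFDerivAt_fst (𝕜 := ℝ) (E := ℝ) (F := H) (p := α t)).comp_hasDerivAt t (hα t ht)
        simpa [hf, Function.comp_def] using this, mem_univ _⟩)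
      (fun t _ => ⟨hasDerivAt_id t, mem_univ _⟩) (by rw [hα0])
    exact this
  have hsnd : ∀ t ∈ Ioo (t1 - ε) (t1 + ε), HasDerivAt (fun t => (α t).2)
      (fderiv ℝ c.ρ (c.ψ (α t).2) (w (t, c.ψ (α t).2))) t := by
    intro t ht
    have := (hasFDerivAt_snd (𝕜 := ℝ) (E := ℝ) (F := H) (p := α t)).comp_hasDerivAt t (hα t ht)
    simpa [hf, hfst t ht, Function.comp_def] using this
  have hI : ∀ᶠ t in 𝓝 t1, t ∈ Ioo (t1 - ε) (t1 + ε) := Ioo_mem_nhds (by linarith) (by linarith)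
  have hVt : ∀ᶠ t in 𝓝 t1, (α t).2 ∈ c.V := by
    have hc : ContinuousAt (fun t => (α t).2) t1 := (hsnd t1 ⟨by linarith, by linarith⟩).continuousAt
    exact hc.eventually_mem (c.hV.mem_nhds (by rw [hα0]; exact hv1))
  have hder : ∀ᶠ t in 𝓝 t1, HasDerivAt (fun t => c.ψ (α t).2) (w (t, c.ψ (α t).2)) t := by
    filter_upwards [hI, hVt] with t hti hv
    have h := ((c.ψ_at hv).differentiableAt (by simp)).hasFDerivAt.comp_hasDerivAt t (hsnd t hti)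
    rw [ht t _ hv] at h
    exact h
  have huniq : g =ᶠ[𝓝 t1] fun t => c.ψ (α t).2 := by
    refine ODE_solution_unique_of_eventually (v := fun t x => w (t, x)) (s := fun _ => univ) (K := L)
      (hL.mono fun t h => h.lipschitzOnWith) (hg.mono fun t h => ⟨h, mem_univ _⟩)
      (hder.mono fun t h => ⟨h, mem_univ _⟩) ?_
    rw [hα0, hψ1]
  refine ⟨fun t => (α t).2, ?_⟩
  filter_upwards [hI, hVt, huniq] with t h1 h2 h3
  refine ⟨h2, h3, ?_⟩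
  have := hsnd t h1
  rw [h3]
  exact this

end Pool.Agent.H64.SYRF
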