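import Mathlib
import Pool.Agent.H64.SYRF.Stay

/-! # Flows of tangent fields preserve the manifold and the zeros of a regular family -/

open Set Filter Topology

namespace Pool.Agent.H64.SYRF

open Pool.Agent.H33.Flow

variable {E H : Type*} [NormedAddCommGroup E] [NormedSpace ℝ E] [CompleteSpace E]
  [NormedAddCommGroup H] [NormedSpace ℝ H] [CompleteSpace H]

/-- the curve of a point of `X` stays in `X` -/
theorem stay_all {X : Set E} (hX : IsClosed X) {w : ℝ × E → E} (hw : ContDiff ℝ (⊤ : ℕ∞) w)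
    (hc : ∀ z ∈ X, ∃ c : Cht E H X, z ∈ c.U ∧ c.Tan w) {R : ℝ} {L : NNReal}
    (hL : ∀ t ∈ Ioo (-R) R, LipschitzWith L (fun x => w (t, x))) {g : ℝ → E}
    (hg : ∀ t ∈ Ioo (-R) R, HasDerivAt g (w (t, g t)) t) (hR : 0 < R) (h0 : g 0 ∈ X) :
    ∀ t ∈ Ioo (-R) R, g t ∈ X := by
  set u : Set ℝ := {t | t ∈ Ioo (-R) R ∧ g t ∈ X} with hu
  have hopen : IsOpen u := by
    rw [isOpen_iff_mem_nhds]
    rintro t ⟨ht, hgt⟩
    obtain ⟨c, hzc, htan⟩ := hc _ hgt
    have hI : ∀ᶠ s in 𝓝 t, s ∈ Ioo (-R) R := isOpen_Ioo.mem_nhds ht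
    obtain ⟨v, hv⟩ := stay_local c hw htan (hI.mono hL) (hI.mono hg) ⟨hgt, hzc⟩
    filter_upwards [hI, hv] with s hs hs2
    refine ⟨hs, ?_⟩
    rw [hs2.2.1]
    exact (c.mem _ hs2.1).1
  have hsub : Ioo (-R) R ⊆ u := by
    refine isPreconnected_Ioo.subset_of_closure_inter_subset hopen
      ⟨0, ⟨by linarith, hR⟩, ⟨by linarith, hR⟩, h0⟩ ?_
    rintro t ⟨htc, ht⟩
    refine ⟨ht, ?_⟩
    have hcont : ContinuousAt g t := (hg t ht).continuousAt
    by_contra hne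
    have h1 : ∀ᶠ s in 𝓝 t, g s ∈ Xᶜ := hcont.eventually_mem (hX.isOpen_compl.mem_nhds hne)
    obtain ⟨s, hs1, hs2⟩ := (mem_closure_iff_nhds.1 htc _ h1)
    exact hs1 hs2.2
  exact fun t ht => (hsub ht).2

/-- the condition on the field in the chart `c`: the derivative of `G` along the flow is `B G` -/
def _root_.Pool.Agent.H64.SYRF.Cht.Lin {X : Set E} (c : Cht E H X) (w : ℝ × E → E)
    (G B : ℝ → E → ℝ) : Prop :=
  ContDiffOn ℝ (⊤ : ℕ∞) (fun p : ℝ × H => G p.1 (c.ψ p.2)) (univ ×ˢ c.V) ∧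
  ∀ t, ∀ v ∈ c.V, fderiv ℝ (fun p : ℝ × H => G p.1 (c.ψ p.2)) (t, v)
    (1, fderiv ℝ c.ρ (c.ψ v) (w (t, c.ψ v))) = B t (c.ψ v) * G t (c.ψ v)

/-- the zeros are preserved along the curves -/
theorem zero_all {X : Set E} {w : ℝ × E → E} (hw : ContDiff ℝ (⊤ : ℕ∞) w)
    {G B : ℝ → E → ℝ} (hB : Continuous (fun p : ℝ × E => B p.1 p.2))
    (hc : ∀ z ∈ X, ∃ c : Cht E H X, z ∈ c.U ∧ c.Tan w ∧ c.Lin w G B) {R : ℝ} {L : NNReal}
    (hL : ∀ t ∈ Ioo (-R) R, LipschitzWith L (fun x => w (t, x))) {g : ℝ → E}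
    (hg : ∀ t ∈ Ioo (-R) R, HasDerivAt g (w (t, g t)) t)
    (hgX : ∀ t ∈ Ioo (-R) R, g t ∈ X) (hR : 0 < R) :
    ∀ t ∈ Ioo (-R) R, (G 0 (g 0) = 0 ↔ G t (g t) = 0) := by
  have hder : ∀ t ∈ Ioo (-R) R, HasDerivAt (fun s => G s (g s)) (B t (g t) * G t (g t)) t := by
    intro t ht
    obtain ⟨c, hzc, htan, hsm, hlin⟩ := hc _ (hgX t ht)
    have hI : ∀ᶠ s in 𝓝 t, s ∈ Ioo (-R) R := isOpen_Ioo.mem_nhds ht
    obtain ⟨v, hv⟩ := stay_local c hw htan (hI.mono hL) (hI.mono hg) ⟨hgX t ht, hzc⟩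
    obtain ⟨hvt, hgt, hvd⟩ := hv.self_of_nhds
    have h1 : HasDerivAt (fun s => ((s, v s) : ℝ × H)) (1, fderiv ℝ c.ρ (g t) (w (t, g t))) t :=
      (hasDerivAt_id t).prodMk hvd
    have h2 : DifferentiableAt ℝ (fun p : ℝ × H => G p.1 (c.ψ p.2)) (t, v t) :=
      (hsm.contDiffAt ((isOpen_univ.prod c.hV).mem_nhds ⟨mem_univ _, hvt⟩)).differentiableAt (by simp)
    have h3 := h2.hasFDerivAt.comp_hasDerivAt t h1
    rw [hgt, hlin t _ hvt, ← hgt] at h3
    refine h3.congr_of_eventuallyEq ?_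
    filter_upwards [hv] with s hs
    simp only [Function.comp]
    rw [← hs.2.1]
  have hcontB : ContinuousOn (fun t => B t (g t)) (Ioo (-R) R) := by
    have : ContinuousOn (fun t => ((t, g t) : ℝ × E)) (Ioo (-R) R) :=
      continuousOn_id.prodMk fun t ht => (hg t ht).continuousAt.continuousWithinAt
    exact hB.comp_continuousOn this
  -- integrating factor
  set β : ℝ → ℝ := fun t => ∫ s in (0 : ℝ)..t, B s (g s) with hβ
  have h0mem : (0 : ℝ) ∈ Ioo (-R) R := ⟨by linarith, hR⟩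
  have hβd : ∀ t ∈ Ioo (-R) R, HasDerivAt β (B t (g t)) t := by
    intro t ht
    have hsub : uIcc 0 t ⊆ Ioo (-R) R := by
      intro s hs
      exact (ordConnected_Ioo.uIcc_subset h0mem ht) hs
    refine intervalIntegral.integral_hasDerivAt_right ?_ ?_ ?_
    · exact (hcontB.mono hsub).intervalIntegrable
    · exact hcontB.stronglyMeasurableAtFilter isOpen_Ioo t ht
    · exact hcontB.continuousAt (isOpen_Ioo.mem_nhds ht)
  have hconst : ∀ t ∈ Ioo (-R) R,
      G t (g t) * Real.exp (-β t) = G 0 (g 0) * Real.exp (-β 0) := by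
    intro t ht
    have hd : ∀ s ∈ Ioo (-R) R, HasDerivAt (fun s => G s (g s) * Real.exp (-β s)) 0 s := by
      intro s hs
      have h1 := (hder s hs).mul ((hβd s hs).fun_neg.exp)
      have h2 : B s (g s) * G s (g s) * Real.exp (-β s) +
          G s (g s) * (Real.exp (-β s) * -B s (g s)) = 0 := by ring
      exact h1.congr_deriv h2
    exact isOpen_Ioo.is_const_of_fderiv_eq_zero isPreconnected_Ioo
      (fun s hs => (hd s hs).differentiableAt.differentiableWithinAt)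
      (fun s hs => by
        have := (hd s hs).hasFDerivAt.fderiv
        rw [this]
        ext
        simp) ht h0mem
  intro t ht
  have h := hconst t ht
  constructor
  · intro h0
    rw [h0, zero_mul] at h
    rcases mul_eq_zero.1 h with h | h
    · exact h
    · exact absurd h (Real.exp_pos _).ne'
  · intro h0
    rw [h0, zero_mul] at h
    rcases mul_eq_zero.1 h.symm with h | h
    · exact h
    · exact absurd h (Real.exp_pos _).ne'

end Pool.Agent.H64.SYRF
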