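import Mathlib
import Pool.Agent.H64.SYRF.Stay2

/-! # The local field of a regular family in a chart -/

open Set Filter Topology

namespace Pool.Agent.H64.SYRF

variable {E H : Type*} [NormedAddCommGroup E] [NormedSpace ℝ E]
  [NormedAddCommGroup H] [NormedSpace ℝ H] [FiniteDimensional ℝ H]

namespace Cht

variable {X : Set E} (c : Cht E H X) (G : ℝ → E → ℝ)

/-- the family in the chart -/
def gc (p : ℝ × H) : ℝ := G p.1 (c.ψ p.2)

/-- the family is smooth and regular in the chart -/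
structure Reg : Prop where
  sm : ContDiffOn ℝ (⊤ : ℕ∞) (c.gc G) (univ ×ˢ c.V)
  reg : ∀ t, ∀ v ∈ c.V, G t (c.ψ v) = 0 → fderiv ℝ (fun w => G t (c.ψ w)) v ≠ 0

/-- basis vectors -/
noncomputable def bs (H : Type*) [NormedAddCommGroup H] [NormedSpace ℝ H] [FiniteDimensional ℝ H]
    (k : Fin (Module.finrank ℝ H)) : H := Module.finBasis ℝ H k

/-- sum of the squares of the partial derivatives -/
noncomputable def sq (p : ℝ × H) : ℝ := ∑ k, (fderiv ℝ (c.gc G) p (0, bs H k)) ^ 2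

/-- the denominator -/
noncomputable def den (p : ℝ × H) : ℝ := c.sq G p + c.gc G p ^ 2

/-- the field in the model space -/
noncomputable def uf (p : ℝ × H) : H :=
  (-(fderiv ℝ (c.gc G) p (1, 0) / c.den G p)) • ∑ k, (fderiv ℝ (c.gc G) p (0, bs H k)) • bs H k

/-- the coefficient -/
noncomputable def bf (p : ℝ × H) : ℝ := fderiv ℝ (c.gc G) p (1, 0) * c.gc G p / c.den G p

variable {G}

omit [FiniteDimensional ℝ H] in
theorem isOpen_dom : IsOpen ((univ : Set ℝ) ×ˢ c.V) := isOpen_univ.prod c.hV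

theorem gc_at (h : c.Reg G) {p : ℝ × H} (hp : p.2 ∈ c.V) : ContDiffAt ℝ (⊤ : ℕ∞) (c.gc G) p :=
  h.sm.contDiffAt (c.isOpen_dom.mem_nhds ⟨mem_univ _, hp⟩)

theorem dgc_at (h : c.Reg G) {p : ℝ × H} (hp : p.2 ∈ c.V) :
    ContDiffAt ℝ (⊤ : ℕ∞) (fderiv ℝ (c.gc G)) p :=
  (c.gc_at h hp).fderiv_right (by simp)

theorem fderiv_slice (h : c.Reg G) {t : ℝ} {v : H} (hv : v ∈ c.V) (a : H) :
    fderiv ℝ (fun w => G t (c.ψ w)) v a = fderiv ℝ (c.gc G) (t, v) (0, a) := by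
  have h1 : HasFDerivAt (fun w => G t (c.ψ w)) (fderiv ℝ (c.gc G) (t, v) ∘L .inr ℝ ℝ H) v :=
    ((c.gc_at h (p := (t, v)) hv).differentiableAt (by simp)).hasFDerivAt.comp v
      (hasFDerivAt_prodMk_right t v)
  rw [h1.fderiv]
  rfl

theorem den_pos (h : c.Reg G) {p : ℝ × H} (hp : p.2 ∈ c.V) : 0 < c.den G p := by
  obtain ⟨t, v⟩ := p
  have h0 : 0 ≤ c.sq G (t, v) := Finset.sum_nonneg fun _ _ => sq_nonneg _
  have h1 : 0 ≤ c.gc G (t, v) ^ 2 := sq_nonneg _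
  rcases h1.lt_or_eq with h1 | h1
  · exact add_pos_of_nonneg_of_pos h0 h1
  rcases h0.lt_or_eq with h0 | h0
  · rw [den, ← h1, add_zero]
    exact h0
  exfalso
  have hz : G t (c.ψ v) = 0 := by
    have := pow_eq_zero_iff (two_ne_zero) |>.1 h1.symm
    exact this
  apply h.reg t v hp hz
  have hk : ∀ k, fderiv ℝ (c.gc G) (t, v) (0, bs H k) = 0 := by
    intro k
    have := (Finset.sum_eq_zero_iff_of_nonneg (fun _ _ => sq_nonneg _)).1 h0.symm k
      (Finset.mem_univ _)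
    exact pow_eq_zero_iff (two_ne_zero) |>.1 this
  have : (fderiv ℝ (fun w => G t (c.ψ w)) v).toLinearMap = 0 := by
    refine (Module.finBasis ℝ H).ext fun k => ?_
    have := c.fderiv_slice h (t := t) hp (bs H k)
    rw [hk k] at this
    exact this
  ext a
  exact congrArg (fun f => f a) this

theorem D_uf (h : c.Reg G) {p : ℝ × H} (hp : p.2 ∈ c.V) :
    fderiv ℝ (c.gc G) p (1, 0) + fderiv ℝ (c.gc G) p (0, c.uf G p) = c.bf G p * c.gc G p := by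
  have hd := (c.den_pos h hp).ne'
  have h2 : ∀ a : H, fderiv ℝ (c.gc G) p (0, a) = (fderiv ℝ (c.gc G) p ∘L .inr ℝ ℝ H) a :=
    fun a => rfl
  have h3 : fderiv ℝ (c.gc G) p (0, c.uf G p) =
      -(fderiv ℝ (c.gc G) p (1, 0) / c.den G p) * c.sq G p := by
    rw [h2, uf, map_smul, map_sum, smul_eq_mul, sq]
    congr 1
    refine Finset.sum_congr rfl fun k _ => ?_
    rw [map_smul, smul_eq_mul, ← h2, pow_two]
  rw [h3, bf]
  have h4 : c.sq G p = c.den G p - c.gc G p ^ 2 := by rw [den]; ring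
  rw [h4]
  field_simp
  ring

theorem sq_at (h : c.Reg G) {p : ℝ × H} (hp : p.2 ∈ c.V) : ContDiffAt ℝ (⊤ : ℕ∞) (c.sq G) p := by
  unfold sq
  exact ContDiffAt.sum fun k _ => ((c.dgc_at h hp).clm_apply contDiffAt_const).pow 2

theorem den_at (h : c.Reg G) {p : ℝ × H} (hp : p.2 ∈ c.V) : ContDiffAt ℝ (⊤ : ℕ∞) (c.den G) p := by
  unfold den
  exact (c.sq_at h hp).add ((c.gc_at h hp).pow 2)

theorem uf_at (h : c.Reg G) {p : ℝ × H} (hp : p.2 ∈ c.V) : ContDiffAt ℝ (⊤ : ℕ∞) (c.uf G) p := by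
  unfold uf
  refine ContDiffAt.smul ?_ ?_
  · exact (((c.dgc_at h hp).clm_apply contDiffAt_const).div (c.den_at h hp)
      (c.den_pos h hp).ne').neg
  · exact ContDiffAt.sum fun k _ => ((c.dgc_at h hp).clm_apply contDiffAt_const).smul
      contDiffAt_const

theorem bf_at (h : c.Reg G) {p : ℝ × H} (hp : p.2 ∈ c.V) : ContDiffAt ℝ (⊤ : ℕ∞) (c.bf G) p := by
  unfold bf
  exact (((c.dgc_at h hp).clm_apply contDiffAt_const).mul (c.gc_at h hp)).div (c.den_at h hp)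
      (c.den_pos h hp).ne'

variable (G)

/-- the field near the chart, in the ambient space -/
noncomputable def wf (p : ℝ × E) : E := fderiv ℝ c.ψ (c.ρ p.2) (c.uf G (p.1, c.ρ p.2))

/-- the coefficient near the chart, in the ambient space -/
noncomputable def cf (p : ℝ × E) : ℝ := c.bf G (p.1, c.ρ p.2)

variable {G}

theorem pr_at {p : ℝ × E} (hp : p.2 ∈ c.U) :
    ContDiffAt ℝ (⊤ : ℕ∞) (fun p : ℝ × E => ((p.1, c.ρ p.2) : ℝ × H)) p :=
  contDiffAt_fst.prodMk ((c.ρ_at hp).comp p contDiffAt_snd)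

theorem wf_at (h : c.Reg G) {p : ℝ × E} (hp : p.2 ∈ c.U) : ContDiffAt ℝ (⊤ : ℕ∞) (c.wf G) p := by
  have h1 : ContDiffAt ℝ (⊤ : ℕ∞) (fun p : ℝ × E => c.ρ p.2) p := (c.ρ_at hp).comp p contDiffAt_snd
  have h2 : ContDiffAt ℝ (⊤ : ℕ∞) (fderiv ℝ c.ψ) (c.ρ p.2) :=
    (c.ψ_at (c.maps _ hp)).fderiv_right (by simp)
  have h3 : ContDiffAt ℝ (⊤ : ℕ∞) (fun p : ℝ × E => fderiv ℝ c.ψ (c.ρ p.2)) p :=
    ContDiffAt.comp p (g := fderiv ℝ c.ψ) h2 h1
  have h4 : ContDiffAt ℝ (⊤ : ℕ∞) (fun p : ℝ × E => c.uf G (p.1, c.ρ p.2)) p :=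
    ContDiffAt.comp p (g := c.uf G) (c.uf_at h (c.maps _ hp)) (c.pr_at hp)
  exact h3.clm_apply h4

theorem cf_at (h : c.Reg G) {p : ℝ × E} (hp : p.2 ∈ c.U) : ContDiffAt ℝ (⊤ : ℕ∞) (c.cf G) p :=
  ContDiffAt.comp p (g := c.bf G) (c.bf_at h (c.maps _ hp)) (c.pr_at hp)

end Cht

/-- gluing with a cut-off function -/
theorem cut_contDiff {W : Type*} [NormedAddCommGroup W] [NormedSpace ℝ W] {χ : E → ℝ}
    (hχ : ContDiff ℝ (⊤ : ℕ∞) χ) {U : Set E} (hs : tsupport χ ⊆ U) {f : ℝ × E → W}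
    (hf : ∀ p : ℝ × E, p.2 ∈ U → ContDiffAt ℝ (⊤ : ℕ∞) f p) :
    ContDiff ℝ (⊤ : ℕ∞) (fun p : ℝ × E => χ p.2 • f p) := by
  rw [contDiff_iff_contDiffAt]
  intro p
  by_cases hp : p.2 ∈ U
  · exact (hχ.contDiffAt.comp p contDiffAt_snd).smul (hf p hp)
  · have h1 : p.2 ∉ tsupport χ := fun h => hp (hs h)
    have h2 : (fun p : ℝ × E => χ p.2 • f p) =ᶠ[𝓝 p] fun _ => 0 := by
      have h3 : ∀ᶠ q : ℝ × E in 𝓝 p, q.2 ∈ (tsupport χ)ᶜ :=
        continuous_snd.continuousAt.eventually_mem ((isClosed_tsupport χ).isOpen_compl.mem_nhds h1)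
      filter_upwards [h3] with q hq
      rw [image_eq_zero_of_notMem_tsupport hq, zero_smul]
    exact contDiffAt_const.congr_of_eventuallyEq h2

end Pool.Agent.H64.SYRF
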