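import Mathlib
import Pool.Agent.H64.SYRF.Loc

/-! # The glued field -/

open Set Filter Topology

namespace Pool.Agent.H64.SYRF

variable {E H : Type*} [NormedAddCommGroup E] [NormedSpace ℝ E]
  [NormedAddCommGroup H] [NormedSpace ℝ H] [FiniteDimensional ℝ H]

namespace Cht

variable {X : Set E} (c d : Cht E H X) {G : ℝ → E → ℝ}

omit [FiniteDimensional ℝ H] in
/-- the transition identity `ψ_c ∘ ρ_c ∘ ψ_d = ψ_d` -/
theorem trans_ev {v : H} (hv : v ∈ d.V) (hU : d.ψ v ∈ c.U) :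
    ∀ᶠ v' in 𝓝 v, v' ∈ d.V ∧ d.ψ v' ∈ X ∩ c.U ∧ c.ψ (c.ρ (d.ψ v')) = d.ψ v' := by
  have h1 : ∀ᶠ v' in 𝓝 v, v' ∈ d.V := d.hV.mem_nhds hv
  have h2 : ∀ᶠ v' in 𝓝 v, d.ψ v' ∈ c.U :=
    (d.ψ_at hv).continuousAt.eventually_mem (c.hU.mem_nhds hU)
  filter_upwards [h1, h2] with v' h1 h2
  have h3 : d.ψ v' ∈ X ∩ c.U := ⟨(d.mem _ h1).1, h2⟩
  exact ⟨h1, h3, (c.right _ h3).2⟩

omit [FiniteDimensional ℝ H] in
theorem trans_fderiv {v : H} (hv : v ∈ d.V) (hU : d.ψ v ∈ c.U) (a : H) :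
    fderiv ℝ c.ψ (c.ρ (d.ψ v)) (fderiv ℝ c.ρ (d.ψ v) (fderiv ℝ d.ψ v a)) = fderiv ℝ d.ψ v a := by
  have hx : d.ψ v ∈ X ∩ c.U := ⟨(d.mem _ hv).1, hU⟩
  have h1 : HasFDerivAt d.ψ (fderiv ℝ d.ψ v) v :=
    ((d.ψ_at hv).differentiableAt (by simp)).hasFDerivAt
  have h2 : HasFDerivAt c.ρ (fderiv ℝ c.ρ (d.ψ v)) (d.ψ v) :=
    ((c.ρ_at hU).differentiableAt (by simp)).hasFDerivAt
  have h3 : HasFDerivAt c.ψ (fderiv ℝ c.ψ (c.ρ (d.ψ v))) (c.ρ (d.ψ v)) :=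
    ((c.ψ_at (c.right _ hx).1).differentiableAt (by simp)).hasFDerivAt
  have h4 := (h3.comp (d.ψ v) h2).comp v h1
  have h5 : HasFDerivAt ((c.ψ ∘ c.ρ) ∘ d.ψ) (fderiv ℝ d.ψ v) v := by
    refine h1.congr_of_eventuallyEq ?_
    filter_upwards [c.trans_ev d hv hU] with v' h
    exact h.2.2
  have h6 := h4.unique h5
  exact congrArg (fun f => f a) h6

/-- the derivative of the family in two charts -/
theorem trans_gc (hc : c.Reg G) (hd : d.Reg G) {t : ℝ} {v : H} (hv : v ∈ d.V) (hU : d.ψ v ∈ c.U)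
    (s : ℝ) (a : H) :
    fderiv ℝ (c.gc G) (t, c.ρ (d.ψ v)) (s, fderiv ℝ c.ρ (d.ψ v) (fderiv ℝ d.ψ v a)) =
      fderiv ℝ (d.gc G) (t, v) (s, a) := by
  have hx : d.ψ v ∈ X ∩ c.U := ⟨(d.mem _ hv).1, hU⟩
  have h1 : HasFDerivAt d.ψ (fderiv ℝ d.ψ v) v :=
    ((d.ψ_at hv).differentiableAt (by simp)).hasFDerivAt
  have h2 : HasFDerivAt c.ρ (fderiv ℝ c.ρ (d.ψ v)) (d.ψ v) :=
    ((c.ρ_at hU).differentiableAt (by simp)).hasFDerivAt
  have h3 : HasFDerivAt (c.ρ ∘ d.ψ) ((fderiv ℝ c.ρ (d.ψ v)) ∘L (fderiv ℝ d.ψ v)) v :=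
    h2.comp v h1
  have h4 : HasFDerivAt (fun p : ℝ × H => ((p.1, (c.ρ ∘ d.ψ) p.2) : ℝ × H))
      ((ContinuousLinearMap.fst ℝ ℝ H).prod
        (((fderiv ℝ c.ρ (d.ψ v)) ∘L (fderiv ℝ d.ψ v)) ∘L (ContinuousLinearMap.snd ℝ ℝ H)))
      (t, v) :=
    hasFDerivAt_fst.prodMk (HasFDerivAt.comp (t, v) (g := c.ρ ∘ d.ψ) h3 hasFDerivAt_snd)
  have h5 : HasFDerivAt (c.gc G) (fderiv ℝ (c.gc G) (t, c.ρ (d.ψ v))) (t, c.ρ (d.ψ v)) :=
    ((c.gc_at hc (p := (t, c.ρ (d.ψ v))) (c.right _ hx).1).differentiableAt (by simp)).hasFDerivAt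
  have h6 := HasFDerivAt.comp (t, v) (g := c.gc G) h5 h4
  have h7 : HasFDerivAt (d.gc G) (fderiv ℝ (d.gc G) (t, v)) (t, v) :=
    ((d.gc_at hd (p := (t, v)) hv).differentiableAt (by simp)).hasFDerivAt
  have h8 : HasFDerivAt (c.gc G ∘ fun p : ℝ × H => ((p.1, (c.ρ ∘ d.ψ) p.2) : ℝ × H))
      (fderiv ℝ (d.gc G) (t, v)) (t, v) := by
    refine h7.congr_of_eventuallyEq ?_
    have h9 := (continuous_snd (X := ℝ) (Y := H)).continuousAt (x := (t, v)) |>.eventually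
      (c.trans_ev d hv hU)
    filter_upwards [h9] with p hp
    simp only [Function.comp, gc]
    rw [hp.2.2]
  have h10 := h6.unique h8
  exact congrArg (fun f => f (s, a)) h10

end Cht

section Glue

variable {X : Set E} {ι : Type*} [Fintype ι] (c : ι → Cht E H X) (χ : ι → E → ℝ)
  (G : ℝ → E → ℝ)

/-- the glued field -/
noncomputable def W (p : ℝ × E) : E := ∑ i, χ i p.2 • (c i).wf G p

/-- the glued coefficient -/
noncomputable def Bc (p : ℝ × E) : ℝ := ∑ i, χ i p.2 • (c i).cf G p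

variable {c χ G}

theorem W_contDiff (hχ : ∀ i, ContDiff ℝ (⊤ : ℕ∞) (χ i)) (hs : ∀ i, tsupport (χ i) ⊆ (c i).U)
    (hr : ∀ i, (c i).Reg G) : ContDiff ℝ (⊤ : ℕ∞) (W c χ G) := by
  unfold W
  exact ContDiff.sum fun i _ => cut_contDiff (hχ i) (hs i) fun p hp => (c i).wf_at (hr i) hp

theorem Bc_contDiff (hχ : ∀ i, ContDiff ℝ (⊤ : ℕ∞) (χ i)) (hs : ∀ i, tsupport (χ i) ⊆ (c i).U)
    (hr : ∀ i, (c i).Reg G) : ContDiff ℝ (⊤ : ℕ∞) (Bc c χ G) := by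
  unfold Bc
  exact ContDiff.sum fun i _ => cut_contDiff (hχ i) (hs i) fun p hp => (c i).cf_at (hr i) hp

theorem W_zero {t : ℝ} {x : E} (hx : x ∉ ⋃ i, tsupport (χ i)) : W c χ G (t, x) = 0 := by
  unfold W
  refine Finset.sum_eq_zero fun i _ => ?_
  have : x ∉ tsupport (χ i) := fun h => hx (mem_iUnion.2 ⟨i, h⟩)
  simp only
  rw [image_eq_zero_of_notMem_tsupport this, zero_smul]

theorem W_tan (hs : ∀ i, tsupport (χ i) ⊆ (c i).U) (d : Cht E H X) : d.Tan (W c χ G) := by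
  intro t v hv
  have hx := d.mem v hv
  unfold W
  simp only
  rw [map_sum, map_sum]
  refine Finset.sum_congr rfl fun i _ => ?_
  by_cases h0 : χ i (d.ψ v) = 0
  · rw [h0, zero_smul, map_zero, map_zero]
  · have hU : d.ψ v ∈ (c i).U := hs i (subset_tsupport _ h0)
    have hr := (c i).right _ ⟨hx.1, hU⟩
    rw [map_smul, map_smul]
    congr 1
    have := d.trans_fderiv (c i) (v := (c i).ρ (d.ψ v)) hr.1 (by rw [hr.2]; exact hx.2)
      ((c i).uf G (t, (c i).ρ (d.ψ v)))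
    rw [hr.2, d.left v hv] at this
    exact this

theorem W_lin (hs : ∀ i, tsupport (χ i) ⊆ (c i).U)
    (hr : ∀ i, (c i).Reg G) {K : Set E} (h1 : ∀ x ∈ K ∩ X, ∑ i, χ i x = 1)
    (hK : ∀ x ∈ X, x ∉ K → ∀ t, G t x = G 0 x) {d : Cht E H X} (hd : d.Reg G) :
    d.Lin (W c χ G) G (fun t x => Bc c χ G (t, x)) := by
  refine ⟨hd.sm, fun t v hv => ?_⟩
  have hx := d.mem v hv
  set D := fderiv ℝ (d.gc G) (t, v) with hD
  have hDsum : ∀ a : H, D (1, a) = D (1, 0) + D (0, a) := by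
    intro a
    rw [← map_add]
    simp
  -- the partition property
  have hpart : D (1, 0) = ∑ i, χ i (d.ψ v) * D (1, 0) := by
    by_cases hxK : d.ψ v ∈ K
    · rw [← Finset.sum_mul, h1 _ ⟨hxK, hx.1⟩, one_mul]
    · have h0 : D (1, 0) = 0 := by
        have h2 : HasDerivAt (fun s : ℝ => d.gc G (s, v)) (D (1, 0)) t := by
          have h3 : HasFDerivAt (d.gc G) D (t, v) :=
            ((d.gc_at hd (p := (t, v)) hv).differentiableAt (by simp)).hasFDerivAt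
          have h4 : HasDerivAt (fun s : ℝ => ((s, v) : ℝ × H)) (1, 0) t :=
            (hasDerivAt_id t).prodMk (hasDerivAt_const t v)
          exact h3.comp_hasDerivAt t h4
        have h5 : (fun s : ℝ => d.gc G (s, v)) = fun _ => G 0 (d.ψ v) := by
          funext s
          exact hK _ hx.1 hxK s
        rw [h5] at h2
        exact h2.unique (hasDerivAt_const t _)
      rw [h0]
      simp
  have hterm : ∀ i, χ i (d.ψ v) * D (1, 0) +
      D (0, fderiv ℝ d.ρ (d.ψ v) (χ i (d.ψ v) • (c i).wf G (t, d.ψ v))) =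
      χ i (d.ψ v) * (c i).cf G (t, d.ψ v) * G t (d.ψ v) := by
    intro i
    by_cases h0 : χ i (d.ψ v) = 0
    · rw [h0, zero_smul, map_zero, ← Prod.zero_eq_mk, map_zero]
      ring
    · have hU : d.ψ v ∈ (c i).U := hs i (subset_tsupport _ h0)
      have hrr := (c i).right _ ⟨hx.1, hU⟩
      have hT := fun s a => d.trans_gc (c i) hd (hr i) (t := t) (v := (c i).ρ (d.ψ v)) hrr.1
        (by rw [hrr.2]; exact hx.2) s a
      rw [hrr.2, d.left v hv] at hT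
      have e1 := hT 1 0
      have e2 := hT 0 ((c i).uf G (t, (c i).ρ (d.ψ v)))
      rw [map_zero, map_zero] at e1
      have e3 := (c i).D_uf (hr i) (p := (t, (c i).ρ (d.ψ v))) hrr.1
      rw [← e1, ← e2] at e3
      have e4 : (c i).gc G (t, (c i).ρ (d.ψ v)) = G t (d.ψ v) := by
        simp only [Cht.gc]
        rw [hrr.2]
      rw [e4] at e3
      have e5 : D (0, fderiv ℝ d.ρ (d.ψ v) (χ i (d.ψ v) • (c i).wf G (t, d.ψ v))) =
          χ i (d.ψ v) * D (0, fderiv ℝ d.ρ (d.ψ v) (fderiv ℝ (c i).ψ ((c i).ρ (d.ψ v))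
            ((c i).uf G (t, (c i).ρ (d.ψ v))))) := by
        have h6 : ((0 : ℝ), fderiv ℝ d.ρ (d.ψ v) (χ i (d.ψ v) • (c i).wf G (t, d.ψ v))) =
            χ i (d.ψ v) • ((0 : ℝ), fderiv ℝ d.ρ (d.ψ v) ((c i).wf G (t, d.ψ v))) := by
          rw [Prod.smul_mk, smul_zero, map_smul]
        rw [h6, map_smul, smul_eq_mul]
        rfl
      rw [e5]
      have e6 : (c i).cf G (t, d.ψ v) = (c i).bf G (t, (c i).ρ (d.ψ v)) := rfl
      rw [e6]
      linear_combination (χ i (d.ψ v)) * e3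
  have hsum : D (0, fderiv ℝ d.ρ (d.ψ v) (W c χ G (t, d.ψ v))) =
      ∑ i, D (0, fderiv ℝ d.ρ (d.ψ v) (χ i (d.ψ v) • (c i).wf G (t, d.ψ v))) := by
    have h7 : ∀ a : H, D (0, a) = (D ∘L .inr ℝ ℝ H) a := fun a => rfl
    unfold W
    rw [h7, map_sum, map_sum]
    rfl
  show D (1, fderiv ℝ d.ρ (d.ψ v) (W c χ G (t, d.ψ v))) = _
  rw [hDsum, hsum, hpart, ← Finset.sum_add_distrib, Finset.sum_congr rfl fun i _ => hterm i]
  unfold Bc
  simp only [smul_eq_mul]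
  rw [Finset.sum_mul]

end Glue

end Pool.Agent.H64.SYRF
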