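import Mathlib
import Pool.Agent.H64.SYRF.Glue

/-! # Short time steps and their composition -/

open Set Filter Topology

namespace Pool.Agent.H64.SYRF

open Pool.Agent.H33.Flow

variable {E H : Type*} [NormedAddCommGroup E] [NormedSpace ℝ E] [CompleteSpace E]
  [NormedAddCommGroup H] [NormedSpace ℝ H] [CompleteSpace H]

omit [CompleteSpace E] [CompleteSpace H] in
theorem Cht.Lin.shift {X : Set E} {c : Cht E H X} {w : ℝ × E → E} {G B : ℝ → E → ℝ}
    (h : c.Lin w G B) (t0 : ℝ) :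
    c.Lin (fun p => w (t0 + p.1, p.2)) (fun t => G (t0 + t)) (fun t => B (t0 + t)) := by
  refine ⟨?_, fun t v hv => ?_⟩
  · have h1 : ContDiffOn ℝ (⊤ : ℕ∞) (fun p : ℝ × H => ((t0 + p.1, p.2) : ℝ × H)) (univ ×ˢ c.V) :=
      ((contDiff_const.add contDiff_fst).prodMk contDiff_snd).contDiffOn
    exact h.1.comp h1 fun p hp => ⟨mem_univ _, hp.2⟩
  · have h2 := h.2 (t0 + t) v hv
    have h3 : HasFDerivAt (fun p : ℝ × H => ((t0 + p.1, p.2) : ℝ × H))
        (ContinuousLinearMap.id ℝ (ℝ × H)) (t, v) := by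
      have h4 : (fun p : ℝ × H => ((t0 + p.1, p.2) : ℝ × H)) = fun p => (t0, 0) + p := by
        funext p
        ext <;> simp
      rw [h4]
      exact (hasFDerivAt_id _).const_add _
    have h5 : HasFDerivAt (fun p : ℝ × H => G p.1 (c.ψ p.2))
        (fderiv ℝ (fun p : ℝ × H => G p.1 (c.ψ p.2)) (t0 + t, v)) (t0 + t, v) :=
      ((h.1.contDiffAt ((isOpen_univ.prod c.hV).mem_nhds ⟨mem_univ _, hv⟩)).differentiableAt
        (by simp)).hasFDerivAt
    have h6 := HasFDerivAt.comp (t, v) (g := fun p : ℝ × H => G p.1 (c.ψ p.2)) h5 h3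
    have h7 : fderiv ℝ (fun p : ℝ × H => G (t0 + p.1) (c.ψ p.2)) (t, v) =
        fderiv ℝ (fun p : ℝ × H => G p.1 (c.ψ p.2)) (t0 + t, v) := by
      have := h6.fderiv
      rw [ContinuousLinearMap.comp_id] at this
      exact this
    rw [h7]
    exact h2

/-- the diffeomorphism data from time `a` to time `b` -/
def Moves (X K' : Set E) (G : ℝ → E → ℝ) (a b : ℝ) : Prop :=
  ∃ Φ Ψ : E → E, ContDiff ℝ (⊤ : ℕ∞) Φ ∧ ContDiff ℝ (⊤ : ℕ∞) Ψ ∧ (∀ z, Ψ (Φ z) = z) ∧
    (∀ z, Φ (Ψ z) = z) ∧ (∀ z ∈ X, Φ z ∈ X) ∧ (∀ z ∈ X, Ψ z ∈ X) ∧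
    (∀ z, z ∉ K' → Φ z = z ∧ Ψ z = z) ∧ ∀ z ∈ X, (G a z = 0 ↔ G b (Φ z) = 0)

omit [CompleteSpace E] in
theorem Moves.refl (X K' : Set E) (G : ℝ → E → ℝ) (a : ℝ) : Moves X K' G a a :=
  ⟨id, id, contDiff_id, contDiff_id, fun _ => rfl, fun _ => rfl, fun _ h => h, fun _ h => h,
    fun _ _ => ⟨rfl, rfl⟩, fun _ _ => Iff.rfl⟩

omit [CompleteSpace E] in
theorem Moves.trans {X K' : Set E} {G : ℝ → E → ℝ} {a b c : ℝ} (h1 : Moves X K' G a b)
    (h2 : Moves X K' G b c) : Moves X K' G a c := by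
  obtain ⟨Φ, Ψ, a1, a2, a3, a4, a5, a6, a7, a8⟩ := h1
  obtain ⟨Φ', Ψ', b1, b2, b3, b4, b5, b6, b7, b8⟩ := h2
  refine ⟨Φ' ∘ Φ, Ψ ∘ Ψ', b1.comp a1, a2.comp b2, fun z => ?_, fun z => ?_,
    fun z hz => b5 _ (a5 z hz), fun z hz => a6 _ (b6 z hz), fun z hz => ⟨?_, ?_⟩,
    fun z hz => (a8 z hz).trans (b8 _ (a5 z hz))⟩
  · simp only [Function.comp, b3, a3]
  · simp only [Function.comp, b4, a4]
  · simp only [Function.comp]
    rw [(a7 z hz).1, (b7 z hz).1]
  · simp only [Function.comp]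
    rw [(b7 z hz).2, (a7 z hz).2]

theorem step {X : Set E} (hX : IsClosed X) {w : ℝ × E → E} (hw : ContDiff ℝ (⊤ : ℕ∞) w)
    {G B : ℝ → E → ℝ} (hB : Continuous (fun p : ℝ × E => B p.1 p.2))
    (hc : ∀ z ∈ X, ∃ c : Cht E H X, z ∈ c.U ∧ c.Tan w ∧ c.Lin w G B)
    {K' : Set E} (hK : ∀ t x, x ∉ K' → w (t, x) = 0) {R K t0 : ℝ}
    (hg : Good (shf w hw t0) R K) {s : ℝ} (hs : |s| < R) :
    Moves X K' G t0 (t0 + s) := by
  have hR := hg.hR
  have hR0 : |(0 : ℝ)| < R := by simpa using hR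
  have hws : ContDiff ℝ (⊤ : ℕ∞) (fun p : ℝ × E => w (t0 + p.1, p.2)) := shf_contDiff w hw t0
  have hLip : ∀ t ∈ Ioo (-R) R, LipschitzWith ⟨K, hg.hK⟩ (fun x => w (t0 + t, x)) := by
    intro t ht
    exact LipschitzWith.of_dist_le_mul fun y z => by
      rw [dist_eq_norm, dist_eq_norm]
      exact hg.lip t (abs_lt.2 ht) y z
  have hcur : ∀ x : E, ∀ t1, |t1| < R → ∀ t ∈ Ioo (-R) R,
      HasDerivAt (fun t => flow (shf w hw t0) t1 t x) (w (t0 + t, flow (shf w hw t0) t1 t x)) t :=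
    fun x t1 ht1 t ht => hasDerivAt_flow hg x ht1 (abs_lt.2 ht)
  have hcs : ∀ z ∈ X, ∃ c : Cht E H X, z ∈ c.U ∧ c.Tan (fun p : ℝ × E => w (t0 + p.1, p.2)) ∧
      c.Lin (fun p => w (t0 + p.1, p.2)) (fun t => G (t0 + t)) (fun t => B (t0 + t)) := by
    intro z hz
    obtain ⟨c, h1, h2, h3⟩ := hc z hz
    exact ⟨c, h1, fun t v hv => h2 (t0 + t) v hv, h3.shift t0⟩
  have hcs' : ∀ z ∈ X, ∃ c : Cht E H X, z ∈ c.U ∧ c.Tan (fun p : ℝ × E => w (t0 + p.1, p.2)) := by
    intro z hz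
    obtain ⟨c, h1, h2, -⟩ := hcs z hz
    exact ⟨c, h1, h2⟩
  have hstay : ∀ x ∈ X, ∀ t ∈ Ioo (-R) R, flow (shf w hw t0) 0 t x ∈ X := by
    intro x hx
    refine stay_all hX hws hcs' hLip (g := fun t => flow (shf w hw t0) 0 t x)
      (hcur x 0 hR0) hR ?_
    rw [flow_self hg x hR0]
    exact hx
  -- constant curves off the support
  have hconst : ∀ z, z ∉ K' → ∀ t, |t| < R → ∀ t1, |t1| < R →
      flow (shf w hw t0) t1 t z = z := by
    intro z hz t ht t1 ht1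
    have := flow_unique hg (g := fun _ => z) (fun t _ => by
      have h1 : shf w hw t0 (t, z) = 0 := hK _ _ hz
      rw [h1]
      exact hasDerivAt_const t z) ht1 ht
    exact this
  have hsI : s ∈ Ioo (-R) R := abs_lt.1 hs
  -- the inverse map preserves X as well: curves backwards
  have hstayB : ∀ x ∈ X, flow (shf w hw t0) s 0 x ∈ X := by
    intro x hx
    set u : Set ℝ := {t | t ∈ Ioo (-R) R ∧ flow (shf w hw t0) s t x ∈ X} with hu
    have hopen : IsOpen u := by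
      rw [isOpen_iff_mem_nhds]
      rintro t ⟨ht, hgt⟩
      obtain ⟨c, hzc, htan⟩ := hcs' _ hgt
      have hI : ∀ᶠ s in 𝓝 t, s ∈ Ioo (-R) R := isOpen_Ioo.mem_nhds ht
      obtain ⟨v, hv⟩ := stay_local c hws htan (hI.mono hLip)
        (g := fun t => flow (shf w hw t0) s t x) (hI.mono (hcur x s hs)) ⟨hgt, hzc⟩
      filter_upwards [hI, hv] with s' hs' hs2
      refine ⟨hs', ?_⟩
      rw [hs2.2.1]
      exact (c.mem _ hs2.1).1
    have hsub : Ioo (-R) R ⊆ u := by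
      refine isPreconnected_Ioo.subset_of_closure_inter_subset hopen
        ⟨s, hsI, hsI, by rw [flow_self hg x hs]; exact hx⟩ ?_
      rintro t ⟨htc, ht⟩
      refine ⟨ht, ?_⟩
      have hcont : ContinuousAt (fun t => flow (shf w hw t0) s t x) t :=
        (hcur x s hs t ht).continuousAt
      by_contra hne
      have h1 : ∀ᶠ s' in 𝓝 t, flow (shf w hw t0) s s' x ∈ Xᶜ :=
        hcont.eventually_mem (hX.isOpen_compl.mem_nhds hne)
      obtain ⟨s', hs1, hs2⟩ := (mem_closure_iff_nhds.1 htc _ h1)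
      exact hs1 hs2.2
    exact (hsub (abs_lt.1 hR0)).2
  refine ⟨fun x => flow (shf w hw t0) 0 s x, fun x => back (shf w hw t0) (s, x), ?_, ?_, ?_, ?_,
    fun z hz => hstay z hz s hsI, fun z hz => hstayB z hz, fun z hz => ⟨hconst z hz s hs 0 hR0,
      hconst z hz 0 hR0 s hs⟩, ?_⟩
  · rw [contDiff_iff_contDiffAt]
    intro x
    have h1 : ContDiffAt ℝ (⊤ : ℕ∞) (fun x : E => ((s, x) : ℝ × E)) x :=
      contDiffAt_const.prodMk contDiffAt_id
    exact ContDiffAt.comp x (g := fun z : ℝ × E => flow (shf w hw t0) 0 z.1 z.2)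
      (contDiffAt_flow0 hg (z := (s, x)) hs) h1
  · rw [contDiff_iff_contDiffAt]
    intro x
    have h1 : ContDiffAt ℝ (⊤ : ℕ∞) (fun x : E => ((s, x) : ℝ × E)) x :=
      contDiffAt_const.prodMk contDiffAt_id
    exact ContDiffAt.comp x (g := back (shf w hw t0)) (contDiffAt_back hg (z := (s, x)) hs) h1
  · exact fun z => back_flow hg hs z
  · exact fun z => flow_back hg hs z
  · intro z hz
    have hBs : Continuous (fun p : ℝ × E => B (t0 + p.1) p.2) :=
      hB.comp ((continuous_const.add continuous_fst).prodMk continuous_snd)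
    have := zero_all (X := X) hws (G := fun t => G (t0 + t)) (B := fun t => B (t0 + t)) hBs hcs hLip
      (g := fun t => flow (shf w hw t0) 0 t z) (hcur z 0 hR0) (hstay z hz) hR s hsI
    simp only [add_zero] at this
    rw [flow_self hg z hR0] at this
    exact this

/-- from time `0` to time `1` -/
theorem moves01 {X : Set E} (hX : IsClosed X) {w : ℝ × E → E} (hw : ContDiff ℝ (⊤ : ℕ∞) w)
    {G B : ℝ → E → ℝ} (hB : Continuous (fun p : ℝ × E => B p.1 p.2))
    (hc : ∀ z ∈ X, ∃ c : Cht E H X, z ∈ c.U ∧ c.Tan w ∧ c.Lin w G B)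
    {K' : Set E} (hKc : IsCompact K') (hK : ∀ t x, x ∉ K' → w (t, x) = 0) :
    Moves X K' G 0 1 := by
  obtain ⟨R, K, hgood⟩ := exists_good w hw hKc hK
  have hR : 0 < R := (hgood 0 ⟨by norm_num, by norm_num⟩).hR
  obtain ⟨N, hN⟩ := exists_nat_gt (1 / R)
  have hN0 : (0 : ℝ) < N := (by positivity : (0 : ℝ) < 1 / R).trans hN
  have hNR : (1 : ℝ) / N < R := by
    rw [div_lt_iff₀ hN0]
    rw [div_lt_iff₀ hR] at hN
    linarith
  have key : ∀ k : ℕ, k ≤ N → Moves X K' G 0 (k / N) := by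
    intro k
    induction k with
    | zero => intro _; simpa using Moves.refl X K' G 0
    | succ k ih =>
      intro hk
      have h1 := ih (by omega)
      have hkN : (k : ℝ) / N ∈ Icc (-1 : ℝ) 2 := by
        have h2 : (k : ℝ) / N ≤ 1 := by
          rw [div_le_one hN0]
          exact_mod_cast (by omega : k ≤ N)
        have h3 : 0 ≤ (k : ℝ) / N := by positivity
        exact ⟨by linarith, by linarith⟩
      have h4 := step hX hw hB hc hK (hgood _ hkN) (s := 1 / N)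
        (by rw [abs_of_pos (by positivity)]; exact hNR)
      have h5 : (k : ℝ) / N + 1 / N = ((k + 1 : ℕ) : ℝ) / N := by
        push_cast
        ring
      rw [h5] at h4
      exact h1.trans h4
  have := key N le_rfl
  rw [div_self hN0.ne'] at this
  exact this

end Pool.Agent.H64.SYRF
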