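import Mathlib
import Pool.Agent.H34.SY.RFSpec
import Pool.Agent.H64.SYRF.Step
import Pool.Agent.H64.SYRF.Clamp

/-! # The regular family lemma -/

open Set Filter Topology
open scoped ContDiff Manifold

namespace Pool.Agent.H64.SYRF

open Pool.Agent.H34.SY

/-- a chart with shrunk domain -/
noncomputable def ofIsChart {E H : Type} [NormedAddCommGroup E] [NormedSpace ℝ E]
    [NormedAddCommGroup H] [NormedSpace ℝ H] {X U : Set E} {V : Set H} {ρ : E → H} {ψ : H → E}
    (h : IsChart X U V ρ ψ) : Cht E H X where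
  U := U ∩ ρ ⁻¹' V
  V := V
  hU := h.smooth_ρ.continuousOn.isOpen_inter_preimage h.isOpen_U h.isOpen_V
  hV := h.isOpen_V
  ρ := ρ
  ψ := ψ
  hρ := h.smooth_ρ.mono inter_subset_left
  hψ := h.smooth_ψ
  mem := fun v hv => ⟨(h.maps_ψ v hv).1, (h.maps_ψ v hv).2, by
    show ρ (ψ v) ∈ V
    rw [h.right_inv v hv]
    exact hv⟩
  left := h.right_inv
  right := fun x hx => ⟨hx.2.2, h.left_inv x ⟨hx.1, hx.2.1⟩⟩
  maps := fun x hx => hx.2

theorem rf : RFStatement := by
  intro E H _ _ _ _ _ _ X F K O η hX hKc hO hKO hη hch hKF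
  obtain ⟨f0, hfs, hf0, hfe, hfp, hfm⟩ := exists_clamp hη
  have : CompleteSpace E := FiniteDimensional.complete ℝ E
  have : CompleteSpace H := FiniteDimensional.complete ℝ H
  set G : ℝ → E → ℝ := fun t z => f0 (F (Real.smoothTransition t) z) with hG
  have hθ : ∀ t, Real.smoothTransition t ∈ Icc (0 : ℝ) 1 := fun t =>
    ⟨Real.smoothTransition.nonneg t, Real.smoothTransition.le_one t⟩
  -- charts
  have hch' : ∀ z : X, ∃ c : Cht E H X, z.1 ∈ c.U ∧ c.Reg G := by
    rintro ⟨z, hz⟩
    obtain ⟨U, V, ρ, ψ, hzU, hc, hsm, hreg⟩ := hch z hz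
    refine ⟨ofIsChart hc, ⟨hzU, hc.maps_ρ z ⟨hz, hzU⟩⟩, ?_, fun t v hv h0 => ?_⟩
    · have h1 : ContDiffOn ℝ ∞ (fun p : ℝ × H => ((Real.smoothTransition p.1, p.2) : ℝ × H))
          (univ ×ˢ V) :=
        ((Real.smoothTransition.contDiff.comp contDiff_fst).prodMk contDiff_snd).contDiffOn
      exact hfs.comp_contDiffOn (hsm.comp h1 fun p hp => ⟨mem_univ _, hp.2⟩)
    · have hz : F (Real.smoothTransition t) (ψ v) = 0 := (hf0 _).1 h0
      have hd : ContinuousAt (fun w => F (Real.smoothTransition t) (ψ w)) v := by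
        have h2 : ContinuousAt (fun p : ℝ × H => F p.1 (ψ p.2)) (Real.smoothTransition t, v) :=
          (hsm.continuousOn).continuousAt
            ((isOpen_univ.prod hc.isOpen_V).mem_nhds ⟨mem_univ _, hv⟩)
        exact ContinuousAt.comp (f := fun w : H => ((Real.smoothTransition t, w) : ℝ × H)) h2
          (continuousAt_const.prodMk continuousAt_id)
      have h3 : ∀ᶠ w in 𝓝 v, f0 (F (Real.smoothTransition t) (ψ w)) =
          F (Real.smoothTransition t) (ψ w) := by
        have h4 := hd.eventually (p := fun s => f0 s = s) (by simp only [hz]; exact hfe)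
        exact h4
      have h5 : fderiv ℝ (fun w => G t (ψ w)) v =
          fderiv ℝ (fun w => F (Real.smoothTransition t) (ψ w)) v :=
        Filter.EventuallyEq.fderiv_eq h3
      show fderiv ℝ (fun w => G t (ψ w)) v ≠ 0
      rw [h5]
      exact hreg _ (hθ t) v hv hz
  choose c hcU hcR using hch'
  obtain ⟨r, hr⟩ := hKc.isBounded.subset_ball (0 : E)
  have hcomp : IsCompact (K ∩ X) := hKc.inter_right hX
  obtain ⟨T, hT⟩ := hcomp.elim_finite_subcover (fun z : X => (c z).U ∩ O ∩ Metric.ball (0 : E) r)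
    (fun z => ((c z).hU.inter hO).inter Metric.isOpen_ball) (fun z hz =>
      mem_iUnion.2 ⟨⟨z, hz.2⟩, ⟨hcU ⟨z, hz.2⟩, hKO hz.1⟩, hr hz.1⟩)
  obtain ⟨f, hf⟩ := SmoothPartitionOfUnity.exists_isSubordinate 𝓘(ℝ, E) hcomp.isClosed
    (fun i : T => (c i.1).U ∩ O ∩ Metric.ball (0 : E) r)
    (fun i => ((c i.1).hU.inter hO).inter Metric.isOpen_ball) (by
      intro z hz
      obtain ⟨i, hi⟩ := mem_iUnion.1 (hT hz)
      obtain ⟨hiT, hi2⟩ := mem_iUnion.1 hi
      exact mem_iUnion.2 ⟨⟨i, hiT⟩, hi2⟩)
  have hχ : ∀ i : T, ContDiff ℝ (⊤ : ℕ∞) (fun x => f i x) := fun i => (f i).contMDiff.contDiff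
  have hs : ∀ i : T, tsupport (fun x => f i x) ⊆ (c i.1).U :=
    fun i => (hf i).trans (inter_subset_left.trans inter_subset_left)
  have h1 : ∀ x ∈ K ∩ X, ∑ i : T, f i x = 1 := by
    intro x hx
    have := f.sum_eq_one hx
    rwa [finsum_eq_sum_of_fintype] at this
  have hK : ∀ x ∈ X, x ∉ K → ∀ t, G t x = G 0 x := by
    intro x hx hxK t
    rcases hKF x hx hxK with h | h
    · show f0 (F _ x) = f0 (F _ x)
      rw [h _ (hθ t), h _ (hθ 0)]
    · -- the sign is constant
      have hcont : Continuous (fun s => F (Real.smoothTransition s) x) := by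
        obtain ⟨U, V, ρ, ψ, hzU, hc, hsm, -⟩ := hch x hx
        have hv := hc.maps_ρ x ⟨hx, hzU⟩
        have hpsi := hc.left_inv x ⟨hx, hzU⟩
        rw [continuous_iff_continuousAt]
        intro s
        have h2 : ContinuousAt (fun p : ℝ × H => F p.1 (ψ p.2)) (Real.smoothTransition s, ρ x) :=
          (hsm.continuousOn).continuousAt
            ((isOpen_univ.prod hc.isOpen_V).mem_nhds ⟨mem_univ _, hv⟩)
        have h3 := ContinuousAt.comp
          (f := fun s : ℝ => ((Real.smoothTransition s, ρ x) : ℝ × H)) h2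
          (Real.smoothTransition.continuous.continuousAt.prodMk continuousAt_const)
        simpa only [Function.comp_def, hpsi] using h3
      have hle : ∀ s, η ≤ |F (Real.smoothTransition s) x| := fun s => h _ (hθ s)
      have hsame : ∀ a b, 0 < F (Real.smoothTransition a) x → 0 < F (Real.smoothTransition b) x := by
        intro a b ha
        by_contra hb
        obtain ⟨s, hs⟩ := mem_range_of_exists_le_of_exists_ge hcont (c := 0) ⟨b, not_lt.1 hb⟩
          ⟨a, ha.le⟩
        have := hle s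
        simp only at hs
        rw [hs, abs_zero] at this
        linarith
      have hval : ∀ s, G s x = if 0 < F (Real.smoothTransition s) x then 1 else -1 := by
        intro s
        have h6 := hle s
        split_ifs with h7
        · rw [abs_of_pos h7] at h6
          exact hfp _ h6
        · rw [abs_of_nonpos (not_lt.1 h7)] at h6
          exact hfm _ (by linarith)
      rw [hval, hval]
      by_cases h8 : 0 < F (Real.smoothTransition t) x
      · rw [if_pos h8, if_pos (hsame _ 0 h8)]
      · rw [if_neg h8, if_neg fun h9 => h8 (hsame _ t h9)]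
  set K' : Set E := ⋃ i : T, tsupport (fun x => f i x) with hK'
  have hK'c : IsCompact K' := by
    refine isCompact_iUnion fun i => ?_
    refine (isCompact_closedBall (0 : E) r).of_isClosed_subset (isClosed_tsupport _) ?_
    exact (hf i).trans (inter_subset_right.trans Metric.ball_subset_closedBall)
  have hK'O : K' ⊆ O := iUnion_subset fun i =>
    (hf i).trans (inter_subset_left.trans inter_subset_right)
  have hW := W_contDiff (c := fun i : T => c i.1) (χ := fun i x => f i x) (G := G) hχ hs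
    (fun i => hcR i.1)
  have hB := Bc_contDiff (c := fun i : T => c i.1) (χ := fun i x => f i x) (G := G) hχ hs
    (fun i => hcR i.1)
  obtain ⟨Φ, Ψ, a1, a2, a3, a4, a5, a6, a7, a8⟩ := moves01 hX hW (G := G)
    (B := fun t x => Bc (fun i : T => c i.1) (fun i x => f i x) G (t, x)) hB.continuous
    (fun z hz => ⟨c ⟨z, hz⟩, hcU ⟨z, hz⟩, W_tan hs _,
      W_lin hs (fun i => hcR i.1) h1 hK (hcR ⟨z, hz⟩)⟩) hK'c
    (fun t x hx => W_zero hx)
  refine ⟨Φ, Ψ, a1, a2, a3, a4, a5, a6, fun z hz => a7 z fun h => hz (hK'O h), fun z hz => ?_⟩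
  have h2 := a8 z hz
  simp only [hG, Real.smoothTransition.zero, Real.smoothTransition.one, hf0] at h2
  exact h2

end Pool.Agent.H64.SYRF
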